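import Pool.Agent.Work.MP_47f029_co.Complex

set_option autoImplicit false

namespace Pool.Agent.Work.MP_47f029_co

open Finset Classical

theorem exists_mask (N : ℕ) (p : ℕ → Prop) : ∃ m : ℕ, ∀ i, m.testBit i = true ↔ (i < N ∧ p i) := by
  induction N with
  | zero => exact ⟨0, fun i => by simp⟩
  | succ n ih =>
    obtain ⟨m, hm⟩ := ih
    by_cases hp : p n
    · refine ⟨m ||| 2 ^ n, fun i => ?_⟩
      rw [Nat.testBit_lor, Nat.testBit_two_pow, Bool.or_eq_true, hm, decide_eq_true_eq]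
      constructor
      · rintro (⟨h1, h2⟩ | h)
        · exact ⟨by omega, h2⟩
        · subst h; exact ⟨by omega, hp⟩
      · rintro ⟨h1, h2⟩
        rcases Nat.lt_succ_iff_lt_or_eq.1 h1 with h | h
        · left; exact ⟨h, h2⟩
        · right; exact h.symm
    · refine ⟨m, fun i => ?_⟩
      rw [hm]
      constructor
      · rintro ⟨h1, h2⟩; exact ⟨by omega, h2⟩
      · rintro ⟨h1, h2⟩
        rcases Nat.lt_succ_iff_lt_or_eq.1 h1 with h | h
        · exact ⟨h, h2⟩
        · subst h; exact absurd h2 hp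

theorem ball_small : ball.all (fun F => small 21 F && (F != 0)) = true := by decide +kernel

theorem ball_antichain : ball.all (fun F => ball.all (fun F' => !subm F F' || F == F')) = true := by
  decide +kernel

theorem small_of_mem {F : ℕ} (hF : F ∈ ball) : small 21 F = true := by
  have h := (List.all_eq_true.1 ball_small) F hF
  rw [Bool.and_eq_true] at h
  exact h.1

theorem ne_zero_of_mem {F : ℕ} (hF : F ∈ ball) : F ≠ 0 := by
  have h := (List.all_eq_true.1 ball_small) F hF
  rw [Bool.and_eq_true] at h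
  simpa using h.2

theorem eq_of_subm {F F' : ℕ} (hF : F ∈ ball) (hF' : F' ∈ ball) (h : subm F F' = true) :
    F = F' := by
  have h1 := (List.all_eq_true.1 ((List.all_eq_true.1 ball_antichain) F hF)) F' hF'
  rw [h] at h1
  simpa using h1

theorem mem_img {F : ℕ} {i : Fin 21} : e i ∈ img F ↔ F.testBit i = true := by
  unfold img
  rw [Finset.mem_image]
  constructor
  · rintro ⟨j, hj, hji⟩
    rw [e_inj hji] at hj
    simpa using hj
  · intro h
    exact ⟨i, by simpa using h, rfl⟩

theorem img_subset {G F : ℕ} (hG : small 21 G = true) : img G ⊆ img F ↔ subm G F = true := by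
  rw [subm_iff]
  constructor
  · intro h i hi
    have hiN := lt_of_testBit hG hi
    have h1 : e ⟨i, hiN⟩ ∈ img G := mem_img.2 hi
    exact mem_img.1 (h h1)
  · intro h v hv
    obtain ⟨i, hi, rfl⟩ := Finset.mem_image.1 hv
    exact mem_img.2 (h i (by simpa using hi))

theorem small_of_subm {G F : ℕ} (hF : small 21 F = true) (h : subm G F = true) :
    small 21 G = true := by
  have h1 : (G &&& F) = G := by simpa [subm] using h
  have h2 : G ≤ F := by rw [← h1]; exact Nat.and_le_right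
  have h3 : F < 2 ^ 21 := by simpa [small, Nat.blt_eq] using hF
  have h4 : G < 2 ^ 21 := lt_of_le_of_lt h2 h3
  simpa [small, Nat.blt_eq] using h4

theorem img_nonempty {G : ℕ} (hG : small 21 G = true) (h0 : G ≠ 0) : (img G).Nonempty :=
  (bits_nonempty hG h0).image e

theorem img_zero : img 0 = ∅ := by
  unfold img bits
  simp

theorem img_mem_facets {F : ℕ} (hF : F ∈ ball) : img F ∈ KK.facets := by
  have hs := small_of_mem hF
  refine ⟨⟨img_nonempty hs (ne_zero_of_mem hF), F, hF, subset_rfl⟩, ?_⟩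
  rintro t ⟨ht, F', hF', htF⟩ hsub
  have h1 : subm F F' = true := (img_subset hs).1 (hsub.trans htF)
  have h2 := eq_of_subm hF hF' h1
  subst h2
  exact Finset.Subset.antisymm hsub htF

theorem facets_eq {s : Finset E21} (hs : s ∈ KK.facets) : ∃ F ∈ ball, s = img F := by
  obtain ⟨⟨hne, F, hF, hsF⟩, hmax⟩ := hs
  exact ⟨F, hF, hmax (img_mem_facets hF).1 hsF⟩

theorem img_inj {F F' : ℕ} (hF : F ∈ ball) (hF' : F' ∈ ball) (h : img F = img F') : F = F' :=
  eq_of_subm hF hF' ((img_subset (small_of_mem hF)).1 h.le)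

theorem main (R : Finset E21 → Finset E21) (h1 : ∀ F ∈ KK.facets, R F ⊆ F)
    (h2 : ∀ σ : Finset E21, (σ = ∅ ∨ σ ∈ KK.faces) →
      ∃! F, F ∈ KK.facets ∧ R F ⊆ σ ∧ σ ⊆ F) : False := by
  have hr : ∀ F : ℕ, ∃ m : ℕ, ∀ i, m.testBit i = true ↔
      (i < 21 ∧ ∃ h : i < 21, e ⟨i, h⟩ ∈ R (img F)) := fun F => exists_mask 21 _
  choose r hr using hr
  have hrF : ∀ F ∈ ball, subm (r F) F = true := by
    intro F hF
    rw [subm_iff]
    intro i hi
    obtain ⟨_, h, hm⟩ := (hr F i).1 hi
    exact mem_img.1 (h1 _ (img_mem_facets hF) hm)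
  have hcov : ∀ F ∈ ball, ∀ G, small 21 G = true →
      ((R (img F) ⊆ img G ∧ img G ⊆ img F) ↔ cov r F G = true) := by
    intro F hF G hG
    unfold cov
    rw [Bool.and_eq_true, img_subset hG, subm_iff (r F) G]
    refine and_congr_left fun _ => ?_
    constructor
    · intro h i hi
      obtain ⟨_, hi', hm⟩ := (hr F i).1 hi
      exact mem_img.1 (h hm)
    · intro h v hv
      obtain ⟨i, hi, rfl⟩ := Finset.mem_image.1 (h1 _ (img_mem_facets hF) hv)
      exact mem_img.2 (h i ((hr F i).2 ⟨i.2, i.2, hv⟩))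
  apply not_partitionable r hrF
  intro G hG
  rw [List.any_eq_true] at hG
  obtain ⟨F0, hF0, hG0⟩ := hG
  have hGs := small_of_subm (small_of_mem hF0) hG0
  have hσ : img G = ∅ ∨ img G ∈ KK.faces := by
    by_cases h0 : G = 0
    · left; rw [h0, img_zero]
    · right
      exact ⟨img_nonempty hGs h0, F0, hF0, (img_subset hGs).2 hG0⟩
  obtain ⟨s, ⟨hs1, hs2, hs3⟩, huniq⟩ := h2 (img G) hσ
  obtain ⟨F, hF, rfl⟩ := facets_eq hs1
  refine ⟨F, ⟨hF, (hcov F hF G hGs).1 ⟨hs2, hs3⟩⟩, ?_⟩
  rintro F' ⟨hF', hc⟩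
  have h3 := (hcov F' hF' G hGs).2 hc
  exact img_inj hF' hF (huniq (img F') ⟨img_mem_facets hF', h3.1, h3.2⟩)

end Pool.Agent.Work.MP_47f029_co
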