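import Pool.Agent.Work.MP_47f029_co.Moves

set_option autoImplicit false

namespace Pool.Agent.Work.MP_47f029_co

open Finset

/-- The corner simplex in `ℝ³`. -/
def T3 : Set (EuclideanSpace ℝ (Fin 3)) := {y | (∀ i, 0 ≤ y i) ∧ ∑ i, y i ≤ 1}

theorem T3_convex : Convex ℝ T3 := by
  intro x hx y hy a b ha hb hab
  refine ⟨fun i => ?_, ?_⟩
  · have h1 := hx.1 i
    have h2 := hy.1 i
    simp only [PiLp.add_apply, PiLp.smul_apply, smul_eq_mul]
    positivity
  · have h1 := hx.2
    have h2 := hy.2
    simp only [PiLp.add_apply, PiLp.smul_apply, smul_eq_mul, Finset.sum_add_distrib,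
      ← Finset.mul_sum]
    nlinarith

theorem T3_closed : IsClosed T3 := by
  have h1 : IsClosed {y : EuclideanSpace ℝ (Fin 3) | ∀ i, 0 ≤ y i} := by
    simp only [Set.ofPred_forall]
    exact isClosed_iInter fun i => isClosed_le continuous_const (by fun_prop)
  have h2 : IsClosed {y : EuclideanSpace ℝ (Fin 3) | ∑ i, y i ≤ 1} :=
    isClosed_le (by fun_prop) continuous_const
  exact h1.inter h2

theorem T3_bounded : Bornology.IsBounded T3 := by
  rw [isBounded_iff_forall_norm_le]
  refine ⟨2, fun y hy => ?_⟩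
  have h0 := hy.1 0
  have h1 := hy.1 1
  have h2 := hy.1 2
  have h3 := hy.2
  rw [Fin.sum_univ_three] at h3
  rw [EuclideanSpace.norm_eq, Fin.sum_univ_three]
  rw [show (2 : ℝ) = Real.sqrt 4 by
    rw [show (4 : ℝ) = 2 ^ 2 by norm_num]; exact (Real.sqrt_sq (by norm_num)).symm]
  apply Real.sqrt_le_sqrt
  simp only [Real.norm_eq_abs, sq_abs]
  nlinarith

theorem T3_interior : (interior T3).Nonempty := by
  refine ⟨!₂[(1 / 4 : ℝ), 1 / 4, 1 / 4], ?_⟩
  rw [mem_interior]
  refine ⟨{y | (∀ i, 0 < y i) ∧ ∑ i, y i < 1}, ?_, ?_, ?_⟩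
  · intro y hy
    exact ⟨fun i => (hy.1 i).le, hy.2.le⟩
  · have h1 : IsOpen {y : EuclideanSpace ℝ (Fin 3) | ∀ i, 0 < y i} := by
      simp only [Set.ofPred_forall]
      exact isOpen_iInter_of_finite fun i => isOpen_lt continuous_const (by fun_prop)
    have h2 : IsOpen {y : EuclideanSpace ℝ (Fin 3) | ∑ i, y i < 1} :=
      isOpen_lt (by fun_prop) continuous_const
    exact h1.inter h2
  · refine ⟨fun i => ?_, ?_⟩
    · fin_cases i <;> norm_num
    · rw [Fin.sum_univ_three]
      simp only [Matrix.cons_val]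
      norm_num

theorem T3_homeo : Nonempty (T3 ≃ₜ Metric.closedBall (0 : EuclideanSpace ℝ (Fin 3)) 1) := by
  obtain ⟨h, _, h2, _⟩ := exists_homeomorph_image_interior_closure_frontier_eq_unitBall
    T3_convex T3_interior T3_bounded
  rw [T3_closed.closure_eq] at h2
  exact ⟨(h.image T3).trans (Homeomorph.setCongr h2)⟩

/-- The set of the four labels of the last simplex. -/
def lab : Finset (Fin 21) := {1, 3, 8, 15}

theorem lab_iff : ∀ i : Fin 21, Nat.testBit 33034 i = true ↔ i ∈ lab := by decide

theorem sum_lab (x : Fin 21 → ℝ) (hx : ∀ i, i ∉ lab → x i = 0) :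
    ∑ i, x i = x 1 + x 3 + x 8 + x 15 := by
  rw [← Finset.sum_subset (Finset.subset_univ lab) (fun i _ hi => hx i hi)]
  unfold lab
  rw [Finset.sum_insert (by decide), Finset.sum_insert (by decide), Finset.sum_insert (by decide),
    Finset.sum_singleton]
  ring

/-- The inverse map. -/
noncomputable def inv3 (y : EuclideanSpace ℝ (Fin 3)) : Fin 21 → ℝ := fun i =>
  if i = 1 then y 0 else if i = 3 then y 1 else if i = 8 then y 2
    else if i = 15 then 1 - (y 0 + y 1 + y 2) else 0

theorem inv3_off (y : EuclideanSpace ℝ (Fin 3)) (i : Fin 21) (hi : i ∉ lab) : inv3 y i = 0 := by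
  simp only [lab, Finset.mem_insert, Finset.mem_singleton, not_or] at hi
  obtain ⟨h1, h2, h3, h4⟩ := hi
  simp [inv3, h1, h2, h3, h4]

theorem continuous_inv3 : Continuous inv3 := by
  refine continuous_pi fun i => ?_
  unfold inv3
  split_ifs <;> fun_prop

theorem rz_homeo_T3 : Nonempty (Rz 21 [33034] ≃ₜ T3) := by
  have off : ∀ x ∈ Rz 21 [33034], ∀ i, i ∉ lab → x i = 0 := by
    intro x hx i hi
    obtain ⟨_, _, F, hF, hxF⟩ := hx
    rw [List.mem_singleton] at hF
    subst hF
    by_contra hne
    exact hi ((lab_iff i).1 (hxF i hne))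
  refine ⟨{ toFun := fun x => ⟨!₂[x.1 1, x.1 3, x.1 8], ?_⟩
            invFun := fun y => ⟨inv3 y.1, ?_⟩
            left_inv := ?_
            right_inv := ?_
            continuous_toFun := ?_
            continuous_invFun := ?_ }⟩
  · refine ⟨fun i => ?_, ?_⟩
    · fin_cases i
      · exact x.2.1 1
      · exact x.2.1 3
      · exact x.2.1 8
    · have h1 := sum_lab x.1 (off x.1 x.2)
      rw [x.2.2.1] at h1
      have h2 := x.2.1 15
      rw [Fin.sum_univ_three]
      simp only [Matrix.cons_val]
      linarith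
  · have hy := y.2
    have h0 := hy.1 0
    have h1 := hy.1 1
    have h2 := hy.1 2
    have h3 := hy.2
    rw [Fin.sum_univ_three] at h3
    refine ⟨fun i => ?_, ?_, 33034, by simp, ?_⟩
    · unfold inv3
      split_ifs
      · exact h0
      · exact h1
      · exact h2
      · linarith
      · exact le_rfl
    · rw [sum_lab _ (inv3_off y.1)]
      have e1 : inv3 y.1 1 = y.1 0 := by simp [inv3]
      have e2 : inv3 y.1 3 = y.1 1 := by simp [inv3]
      have e3 : inv3 y.1 8 = y.1 2 := by simp [inv3]
      have e4 : inv3 y.1 15 = 1 - (y.1 0 + y.1 1 + y.1 2) := by simp [inv3]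
      rw [e1, e2, e3, e4]
      ring
    · intro i hi
      rw [lab_iff]
      by_contra hcon
      exact hi (inv3_off y.1 i hcon)
  · intro x
    apply Subtype.ext
    funext i
    have h1 := sum_lab x.1 (off x.1 x.2)
    rw [x.2.2.1] at h1
    show inv3 !₂[x.1 1, x.1 3, x.1 8] i = x.1 i
    by_cases hi : i ∈ lab
    · simp only [lab, Finset.mem_insert, Finset.mem_singleton] at hi
      rcases hi with rfl | rfl | rfl | rfl
      · simp [inv3]
      · simp [inv3]
      · simp [inv3]
      · simp [inv3]
        linarith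
    · rw [inv3_off _ i hi, off x.1 x.2 i hi]
  · intro y
    apply Subtype.ext
    ext i
    fin_cases i
    · simp [inv3]
    · simp [inv3]
    · simp [inv3]
  · refine Continuous.subtype_mk ?_ _
    refine (PiLp.continuous_toLp 2 (fun _ : Fin 3 => ℝ)).comp (continuous_pi fun i => ?_)
    fin_cases i
    · exact (continuous_apply (1 : Fin 21)).comp continuous_subtype_val
    · exact (continuous_apply (3 : Fin 21)).comp continuous_subtype_val
    · exact (continuous_apply (8 : Fin 21)).comp continuous_subtype_val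
  · exact (continuous_inv3.comp continuous_subtype_val).subtype_mk _

end Pool.Agent.Work.MP_47f029_co
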