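import Pool.Agent.Work.MP_47f029_co.NonPart
import Pool.Agent.Work.MP_47f029_co.Simplex

set_option autoImplicit false

namespace Pool.Agent.Work.MP_47f029_co

open Finset Classical

/-- The ambient space. -/
abbrev E21 := EuclideanSpace ℝ (Fin 21)

/-- The vertices. -/
noncomputable def e (i : Fin 21) : E21 := EuclideanSpace.single i (1 : ℝ)

theorem e_apply (i j : Fin 21) : e i j = if j = i then 1 else 0 := by
  unfold e
  rw [PiLp.single_apply]

theorem e_inj : Function.Injective e := by
  intro i j h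
  by_contra hne
  have h1 : e i i = e j i := by rw [h]
  rw [e_apply, e_apply, if_pos rfl, if_neg hne] at h1
  exact one_ne_zero h1

/-- All vertices. -/
noncomputable def allV : Finset E21 := Finset.univ.image e

theorem allV_indep : AffineIndependent ℝ ((↑) : allV → E21) := by
  have h1 : LinearIndependent ℝ e := by
    have h := (EuclideanSpace.basisFun (Fin 21) ℝ).toBasis.linearIndependent
    have h2 : ⇑(EuclideanSpace.basisFun (Fin 21) ℝ).toBasis = e := by
      funext i
      simp [e]
    rwa [h2] at h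
  have h2 := h1.affineIndependent.range
  have h3 : ((allV : Finset E21) : Set E21) = Set.range e := by
    simp [allV]
  exact h2.mono (s := ((allV : Finset E21) : Set E21)) h3.le

/-- The geometric simplex spanned by a bitmask. -/
noncomputable def img (F : ℕ) : Finset E21 := (bits 21 F).image e

theorem img_sub_allV (F : ℕ) : img F ⊆ allV := Finset.image_subset_image (Finset.subset_univ _)

/-- The geometric complex. -/
noncomputable def KK : Geometry.SimplicialComplex ℝ E21 where
  faces := {s | s.Nonempty ∧ ∃ F ∈ ball, s ⊆ img F}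
  isRelLowerSet_faces := by
    rintro s ⟨hs, F, hF, hsF⟩
    exact ⟨hs, fun t hts htne => ⟨htne, F, hF, hts.trans hsF⟩⟩
  indep := by
    rintro s ⟨hs, F, hF, hsF⟩
    exact allV_indep.mono (s := (s : Set E21)) (by exact_mod_cast hsF.trans (img_sub_allV F))
  inter_subset_convexHull := by
    rintro s t ⟨hs, F, hF, hsF⟩ ⟨ht, F', hF', htF⟩
    exact (allV_indep.convexHull_inter (hsF.trans (img_sub_allV F))
      (htF.trans (img_sub_allV F'))).symm.le

theorem KK_finite : KK.faces.Finite := by
  apply (allV.powerset.finite_toSet).subset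
  rintro s ⟨_, F, _, hsF⟩
  simp only [Finset.mem_coe, Finset.mem_powerset]
  exact hsF.trans (img_sub_allV F)

theorem mem_hull {F : ℕ} {x : E21} (hx : x ∈ convexHull ℝ ((img F : Finset E21) : Set E21)) :
    (∀ i, 0 ≤ x i) ∧ ∑ i, x i = 1 ∧ Supp (fun i => x i) F := by
  let C : Set E21 := {x | (∀ i, 0 ≤ x i) ∧ ∑ i, x i = 1 ∧ ∀ i : Fin 21, F.testBit i = false →
    x i = 0}
  have hC : Convex ℝ C := by
    intro x hx y hy a b ha hb hab
    refine ⟨fun i => ?_, ?_, fun i hi => ?_⟩
    · have h1 := hx.1 i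
      have h2 := hy.1 i
      simp only [PiLp.add_apply, PiLp.smul_apply, smul_eq_mul]
      positivity
    · simp only [PiLp.add_apply, PiLp.smul_apply, smul_eq_mul, Finset.sum_add_distrib,
        ← Finset.mul_sum]
      rw [hx.2.1, hy.2.1, mul_one, mul_one, hab]
    · simp only [PiLp.add_apply, PiLp.smul_apply, smul_eq_mul]
      rw [hx.2.2 i hi, hy.2.2 i hi, mul_zero, mul_zero, add_zero]
  have hsub : ((img F : Finset E21) : Set E21) ⊆ C := by
    intro v hv
    have hv' : v ∈ img F := hv
    obtain ⟨i, hi, rfl⟩ := Finset.mem_image.1 hv'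
    have hiF : F.testBit i = true := by simpa using hi
    refine ⟨fun j => ?_, ?_, fun j hj => ?_⟩
    · rw [e_apply]; split_ifs <;> norm_num
    · simp only [e_apply]
      simp
    · rw [e_apply, if_neg]
      rintro rfl
      rw [hiF] at hj
      exact absurd hj (by simp)
  have h := convexHull_min hsub hC hx
  refine ⟨h.1, h.2.1, fun i hi => ?_⟩
  by_contra hcon
  exact hi (h.2.2 i (by simpa using hcon))

theorem sum_e (x : E21) : ∑ i, x i • e i = x := by
  ext j
  simp [e_apply]

theorem mem_hull' {F : ℕ} {x : E21} (h0 : ∀ i, 0 ≤ x i) (h1 : ∑ i, x i = 1)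
    (h2 : Supp (fun i => x i) F) : x ∈ convexHull ℝ ((img F : Finset E21) : Set E21) := by
  rw [← sum_e x]
  have hz : ∀ i ∈ (Finset.univ : Finset (Fin 21)), i ∉ bits 21 F → x i = 0 := by
    intro i _ hi
    by_contra hne
    exact hi (by simpa using h2 i hne)
  rw [← Finset.sum_subset (Finset.subset_univ (bits 21 F))
    (fun i hi hi' => by rw [hz i hi hi', zero_smul])]
  apply (convex_convexHull ℝ _).sum_mem
  · intro i _; exact h0 i
  · rw [← h1]
    exact Finset.sum_subset (Finset.subset_univ _) hz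
  · intro i hi
    exact subset_convexHull ℝ _ (Finset.mem_coe.2 (Finset.mem_image_of_mem e hi))

theorem mem_KK_space (x : E21) : x ∈ KK.space ↔ (fun i => x i) ∈ Rz 21 ball := by
  rw [Geometry.SimplicialComplex.mem_space_iff]
  constructor
  · rintro ⟨s, ⟨hs, F, hF, hsF⟩, hx⟩
    have h := mem_hull (convexHull_mono (by exact_mod_cast hsF) hx)
    exact ⟨h.1, h.2.1, F, hF, h.2.2⟩
  · rintro ⟨h0, h1, F, hF, h2⟩
    have h := mem_hull' h0 h1 h2
    refine ⟨img F, ⟨?_, F, hF, subset_rfl⟩, h⟩
    have : (convexHull ℝ ((img F : Finset E21) : Set E21)).Nonempty := ⟨x, h⟩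
    rw [convexHull_nonempty_iff] at this
    exact_mod_cast this

theorem KK_homeo_Rz : Nonempty (KK.space ≃ₜ Rz 21 ball) :=
  ⟨(EuclideanSpace.equiv (Fin 21) ℝ).toHomeomorph.subtype (fun x => mem_KK_space x)⟩

theorem KK_homeo : Nonempty (KK.space ≃ₜ Metric.closedBall (0 : EuclideanSpace ℝ (Fin 3)) 1) := by
  obtain ⟨f1⟩ := KK_homeo_Rz
  obtain ⟨f2⟩ := ball_homeo
  obtain ⟨f3⟩ := rz_homeo_T3
  obtain ⟨f4⟩ := T3_homeo
  exact ⟨((f1.trans f2).trans f3).trans f4⟩

end Pool.Agent.Work.MP_47f029_co
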