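import Pool.Agent.Work.MP_47f029_co.TwinDefs

set_option autoImplicit false

/-! The cone over a simplicial ball is a simplicial ball, and a cone is partitionable only if its
base is. -/

namespace Pool.Agent.Work.MP_47f029_co

open Finset

variable {N : ℕ}

/-- The trace of a set of vertices of the cone on the base. -/
def restr (s : Finset (Fin (N + 1))) : Finset (Fin N) := Finset.univ.filter (fun i => i.castSucc ∈ s)

@[simp] theorem mem_restr {s : Finset (Fin (N + 1))} {i : Fin N} : i ∈ restr s ↔ i.castSucc ∈ s := by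
  simp [restr]

theorem restr_mono {s t : Finset (Fin (N + 1))} (h : s ⊆ t) : restr s ⊆ restr t := by
  intro i hi
  rw [mem_restr] at hi ⊢
  exact h hi

/-- A face of the base as a face of the cone. -/
def low (F : Finset (Fin N)) : Finset (Fin (N + 1)) := F.map Fin.castSuccEmb

/-- The cone over a face of the base. -/
def up (F : Finset (Fin N)) : Finset (Fin (N + 1)) := insert (Fin.last N) (low F)

@[simp] theorem castSucc_mem_low {F : Finset (Fin N)} {i : Fin N} : i.castSucc ∈ low F ↔ i ∈ F := by
  simp [low]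

@[simp] theorem last_notMem_low {F : Finset (Fin N)} : Fin.last N ∉ low F := by
  simp [low]

@[simp] theorem castSucc_mem_up {F : Finset (Fin N)} {i : Fin N} : i.castSucc ∈ up F ↔ i ∈ F := by
  rw [up, Finset.mem_insert, castSucc_mem_low]
  simp [Fin.castSucc_ne_last]

@[simp] theorem last_mem_up {F : Finset (Fin N)} : Fin.last N ∈ up F := by
  simp [up]

@[simp] theorem restr_low (F : Finset (Fin N)) : restr (low F) = F := by
  ext i; simp

@[simp] theorem restr_up (F : Finset (Fin N)) : restr (up F) = F := by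
  ext i; simp

theorem ext_cone {s t : Finset (Fin (N + 1))} (h1 : Fin.last N ∈ s ↔ Fin.last N ∈ t)
    (h2 : restr s = restr t) : s = t := by
  ext j
  refine Fin.lastCases h1 (fun i => ?_) j
  rw [← mem_restr, ← mem_restr, h2]

theorem sub_cone {s t : Finset (Fin (N + 1))} (h1 : Fin.last N ∈ s → Fin.last N ∈ t)
    (h2 : restr s ⊆ restr t) : s ⊆ t := by
  intro j
  refine Fin.lastCases h1 (fun i hi => ?_) j
  exact mem_restr.1 (h2 (mem_restr.2 hi))

theorem up_restr {s : Finset (Fin (N + 1))} (h : Fin.last N ∈ s) : up (restr s) = s :=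
  ext_cone (by simp [h]) (by simp)

theorem card_up (F : Finset (Fin N)) : (up F).card = F.card + 1 := by
  rw [up, Finset.card_insert_of_notMem last_notMem_low, low, Finset.card_map]

/-- The cone over `Δ`. -/
def cone (Δ : Set (Finset (Fin N))) : Set (Finset (Fin (N + 1))) := {s | restr s ∈ Δ}

theorem isComplex_cone {Δ : Set (Finset (Fin N))} (h : IsComplex Δ) : IsComplex (cone Δ) := by
  refine ⟨?_, fun F hF G hG => h.2 _ hF _ (restr_mono hG)⟩
  have : restr (∅ : Finset (Fin (N + 1))) = ∅ := by ext i; simp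
  show restr ∅ ∈ Δ
  rw [this]
  exact h.1

theorem isFacet_cone {Δ : Set (Finset (Fin N))} {s : Finset (Fin (N + 1))} :
    IsFacet (cone Δ) s ↔ Fin.last N ∈ s ∧ IsFacet Δ (restr s) := by
  constructor
  · rintro ⟨h1, h2⟩
    have hl : Fin.last N ∈ s := by
      have h3 : restr (insert (Fin.last N) s) = restr s := by
        ext i
        simp [Fin.castSucc_ne_last]
      have h4 : insert (Fin.last N) s ∈ cone Δ := by
        show restr _ ∈ Δ
        rw [h3]; exact h1
      rw [← h2 _ h4 (Finset.subset_insert _ _)]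
      exact Finset.mem_insert_self _ _
    refine ⟨hl, h1, fun G hG hsG => ?_⟩
    have h5 : up G ∈ cone Δ := by
      show restr _ ∈ Δ
      rw [restr_up]; exact hG
    have h6 := h2 _ h5 (sub_cone (fun _ => last_mem_up) (by rw [restr_up]; exact hsG))
    rw [← h6, restr_up]
  · rintro ⟨hl, h1, h2⟩
    refine ⟨h1, fun t ht hst => ?_⟩
    have h3 := h2 (restr t) ht (restr_mono hst)
    exact ext_cone ⟨fun _ => hl, fun _ => hst hl⟩ h3

theorem partitionable_of_cone {Δ : Set (Finset (Fin N))} (h : Partitionable (cone Δ)) :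
    Partitionable Δ := by
  obtain ⟨R, h1, h2⟩ := h
  have hup : ∀ {F : Finset (Fin N)}, IsFacet Δ F → IsFacet (cone Δ) (up F) := fun hF =>
    isFacet_cone.2 ⟨last_mem_up, by rw [restr_up]; exact hF⟩
  have hlow : ∀ {F : Finset (Fin N)}, F ∈ Δ → low F ∈ cone Δ := by
    intro F hF
    show restr _ ∈ Δ
    rw [restr_low]; exact hF
  have hlast : ∀ {F : Finset (Fin N)}, IsFacet Δ F → Fin.last N ∉ R (up F) := by
    intro F hF hcon
    obtain ⟨s, ⟨hs1, hs2, hs3⟩, _⟩ := h2 (low F) (hlow hF.1)
    have hs1' := isFacet_cone.1 hs1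
    have h3 : restr s = F := hF.2 _ hs1'.2.1 (by have := restr_mono hs3; rwa [restr_low] at this)
    have h4 : s = up F := by rw [← h3, up_restr hs1'.1]
    rw [h4] at hs2
    exact last_notMem_low (hs2 hcon)
  refine ⟨fun F => restr (R (up F)), fun F hF => ?_, fun G hG => ?_⟩
  · have := restr_mono (h1 _ (hup hF))
    rwa [restr_up] at this
  · obtain ⟨s, ⟨hs1, hs2, hs3⟩, huniq⟩ := h2 (low G) (hlow hG)
    have hs1' := isFacet_cone.1 hs1
    refine ⟨restr s, ⟨hs1'.2, ?_, ?_⟩, ?_⟩
    · show restr (R (up (restr s))) ⊆ G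
      rw [up_restr hs1'.1]
      have := restr_mono hs2
      rwa [restr_low] at this
    · have := restr_mono hs3
      rwa [restr_low] at this
    · rintro F ⟨hF1, hF2, hF3⟩
      have h5 : R (up F) ⊆ low G :=
        sub_cone (fun hcon => absurd hcon (hlast hF1)) (by rw [restr_low]; exact hF2)
      have h6 : low G ⊆ up F :=
        sub_cone (fun hcon => absurd hcon last_notMem_low) (by rw [restr_low, restr_up]; exact hF3)
      have h7 := huniq (up F) ⟨hup hF1, h5, h6⟩
      rw [← h7, restr_up]

/-- Two quotients of a compact space with the same fibres are homeomorphic. -/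
theorem homeo_of_fibers {Z A B : Type*} [TopologicalSpace Z] [CompactSpace Z]
    [TopologicalSpace A] [T2Space A] [TopologicalSpace B] [T2Space B] {p : Z → A} {q : Z → B}
    (hp : Continuous p) (hq : Continuous q) (hps : Function.Surjective p)
    (hqs : Function.Surjective q) (h : ∀ z w, p z = p w ↔ q z = q w) : Nonempty (A ≃ₜ B) := by
  have qp : Topology.IsQuotientMap p := hp.isClosedMap.isQuotientMap hp hps
  have qq : Topology.IsQuotientMap q := hq.isClosedMap.isQuotientMap hq hqs
  have e1 : ∀ z, q (Function.surjInv hps (p z)) = q z := fun z =>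
    (h _ _).1 (Function.surjInv_eq hps (p z))
  have e2 : ∀ z, p (Function.surjInv hqs (q z)) = p z := fun z =>
    (h _ _).2 (Function.surjInv_eq hqs (q z))
  refine ⟨{ toFun := fun a => q (Function.surjInv hps a)
            invFun := fun b => p (Function.surjInv hqs b)
            left_inv := ?_
            right_inv := ?_
            continuous_toFun := ?_
            continuous_invFun := ?_ }⟩
  · intro a
    obtain ⟨z, rfl⟩ := hps a
    show p (Function.surjInv hqs (q (Function.surjInv hps (p z)))) = p z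
    rw [e1, e2]
  · intro b
    obtain ⟨z, rfl⟩ := hqs b
    show q (Function.surjInv hps (p (Function.surjInv hqs (q z)))) = q z
    rw [e2, e1]
  · rw [qp.continuous_iff]
    have : (fun a => q (Function.surjInv hps a)) ∘ p = q := funext e1
    rw [this]; exact hq
  · rw [qq.continuous_iff]
    have : (fun b => p (Function.surjInv hqs b)) ∘ q = p := funext e2
    rw [this]; exact hp

/-- The first `d` coordinates. -/
def ini {d : ℕ} (z : EuclideanSpace ℝ (Fin (d + 1))) : EuclideanSpace ℝ (Fin d) :=
  WithLp.toLp 2 (fun i => z i.castSucc)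

theorem ini_apply {d : ℕ} (z : EuclideanSpace ℝ (Fin (d + 1))) (i : Fin d) :
    ini z i = z i.castSucc := rfl

theorem continuous_ini {d : ℕ} : Continuous (ini (d := d)) := by
  unfold ini
  refine (PiLp.continuous_toLp 2 (fun _ : Fin d => ℝ)).comp (continuous_pi fun i => ?_)
  fun_prop

/-- The solid cone in `ℝ^(d+1)`. -/
def solid (d : ℕ) : Set (EuclideanSpace ℝ (Fin (d + 1))) :=
  {z | ‖ini z‖ ≤ z (Fin.last d) ∧ z (Fin.last d) ≤ 1}

theorem solid_convex (d : ℕ) : Convex ℝ (solid d) := by
  intro x hx y hy a b ha hb hab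
  have e : ini (a • x + b • y) = a • ini x + b • ini y := by
    ext i
    simp [ini_apply]
  have e2 : (a • x + b • y) (Fin.last d) = a * x (Fin.last d) + b * y (Fin.last d) := by simp
  refine ⟨?_, ?_⟩
  · rw [e, e2]
    calc ‖a • ini x + b • ini y‖ ≤ ‖a • ini x‖ + ‖b • ini y‖ := norm_add_le _ _
      _ = a * ‖ini x‖ + b * ‖ini y‖ := by
        rw [norm_smul, norm_smul, Real.norm_of_nonneg ha, Real.norm_of_nonneg hb]
      _ ≤ _ := by
        have h1 := mul_le_mul_of_nonneg_left hx.1 ha
        have h2 := mul_le_mul_of_nonneg_left hy.1 hb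
        linarith
  · rw [e2]
    have h1 := mul_le_mul_of_nonneg_left hx.2 ha
    have h2 := mul_le_mul_of_nonneg_left hy.2 hb
    linarith

theorem solid_closed (d : ℕ) : IsClosed (solid d) := by
  have h1 : IsClosed {z : EuclideanSpace ℝ (Fin (d + 1)) | ‖ini z‖ ≤ z (Fin.last d)} :=
    isClosed_le continuous_ini.norm (by fun_prop)
  have h2 : IsClosed {z : EuclideanSpace ℝ (Fin (d + 1)) | z (Fin.last d) ≤ 1} :=
    isClosed_le (by fun_prop) continuous_const
  exact h1.inter h2

theorem solid_bounded (d : ℕ) : Bornology.IsBounded (solid d) := by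
  rw [isBounded_iff_forall_norm_le]
  refine ⟨2, fun z hz => ?_⟩
  have h0 : 0 ≤ ‖ini z‖ := norm_nonneg _
  have h1 : ‖z‖ ^ 2 = ‖ini z‖ ^ 2 + z (Fin.last d) ^ 2 := by
    rw [EuclideanSpace.norm_sq_eq, EuclideanSpace.norm_sq_eq, Fin.sum_univ_castSucc]
    simp [ini_apply]
  have h2 := hz.1
  have h3 := hz.2
  nlinarith [norm_nonneg z]

theorem solid_interior (d : ℕ) : (interior (solid d)).Nonempty := by
  refine ⟨EuclideanSpace.single (Fin.last d) (1 / 2 : ℝ), ?_⟩
  rw [mem_interior]
  refine ⟨{z | ‖ini z‖ < z (Fin.last d) ∧ z (Fin.last d) < 1}, ?_, ?_, ?_⟩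
  · intro z hz
    exact ⟨hz.1.le, hz.2.le⟩
  · have h1 : IsOpen {z : EuclideanSpace ℝ (Fin (d + 1)) | ‖ini z‖ < z (Fin.last d)} :=
      isOpen_lt continuous_ini.norm (by fun_prop)
    have h2 : IsOpen {z : EuclideanSpace ℝ (Fin (d + 1)) | z (Fin.last d) < 1} :=
      isOpen_lt (by fun_prop) continuous_const
    exact h1.inter h2
  · have e : ini (EuclideanSpace.single (Fin.last d) (1 / 2 : ℝ)) = 0 := by
      ext i
      rw [ini_apply, PiLp.single_apply, if_neg (Fin.castSucc_ne_last i)]
      rfl
    refine ⟨?_, ?_⟩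
    · rw [e, norm_zero, PiLp.single_apply, if_pos rfl]
      norm_num
    · rw [PiLp.single_apply, if_pos rfl]
      norm_num

theorem solid_homeo (d : ℕ) :
    Nonempty (solid d ≃ₜ Metric.closedBall (0 : EuclideanSpace ℝ (Fin (d + 1))) 1) := by
  obtain ⟨h, _, h2, _⟩ := exists_homeomorph_image_interior_closure_frontier_eq_unitBall
    (solid_convex d) (solid_interior d) (solid_bounded d)
  rw [(solid_closed d).closure_eq] at h2
  exact ⟨(h.image (solid d)).trans (Homeomorph.setCongr h2)⟩

theorem cone_ball {d : ℕ} {Δ : Set (Finset (Fin N))} (hΔ : IsComplex Δ)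
    (hh : Nonempty (realization Δ ≃ₜ Metric.closedBall (0 : EuclideanSpace ℝ (Fin d)) 1)) :
    Nonempty (realization (cone Δ) ≃ₜ
      Metric.closedBall (0 : EuclideanSpace ℝ (Fin (d + 1))) 1) := by
  classical
  obtain ⟨h⟩ := hh
  have : CompactSpace (Metric.closedBall (0 : EuclideanSpace ℝ (Fin d)) 1) :=
    isCompact_iff_compactSpace.1 (isCompact_closedBall _ _)
  have : CompactSpace (realization Δ) := h.symm.compactSpace
  let x0 : realization Δ := h.symm ⟨0, by simp⟩
  -- the two maps
  let P : realization Δ × unitInterval → (Fin (N + 1) → ℝ) := fun z =>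
    Fin.snoc (α := fun _ => ℝ) (fun i => (z.2 : ℝ) * z.1.1 i) (1 - z.2)
  let Q : realization Δ × unitInterval → EuclideanSpace ℝ (Fin (d + 1)) := fun z =>
    WithLp.toLp 2 (Fin.snoc (α := fun _ => ℝ) (fun i => (z.2 : ℝ) * (h z.1).1 i) z.2)
  have Pc : ∀ z i, P z (Fin.castSucc i) = (z.2 : ℝ) * z.1.1 i := fun z i => by
    simp only [P, Fin.snoc_castSucc]
  have Pl : ∀ z, P z (Fin.last N) = 1 - z.2 := fun z => by simp only [P, Fin.snoc_last]
  have Qc : ∀ z i, Q z (Fin.castSucc i) = (z.2 : ℝ) * (h z.1).1 i := fun z i => by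
    simp only [Q, Fin.snoc_castSucc]
  have Ql : ∀ z, Q z (Fin.last d) = z.2 := fun z => by simp only [Q, Fin.snoc_last]
  have Qi : ∀ z, ini (Q z) = (z.2 : ℝ) • (h z.1).1 := fun z => by
    ext i
    rw [ini_apply, Qc]; rfl
  have hPmem : ∀ z, P z ∈ realization (cone Δ) := by
    rintro z
    have hz := z.1.2
    have h0 : (0 : ℝ) ≤ z.2 := z.2.2.1
    have h1 : (z.2 : ℝ) ≤ 1 := z.2.2.2
    refine ⟨?_, ?_, ?_⟩
    · refine Fin.lastCases ?_ (fun i => ?_)
      · rw [Pl]; linarith
      · rw [Pc]; exact mul_nonneg h0 (hz.1 i)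
    · rw [Fin.sum_univ_castSucc, Pl]
      simp only [Pc]
      rw [← Finset.mul_sum, hz.2.1]
      ring
    · refine ⟨Finset.univ.filter (fun j => P z j ≠ 0), ?_, fun j => by simp⟩
      obtain ⟨F, hF, hFx⟩ := hz.2.2
      refine hΔ.2 F hF _ ?_
      intro i hi
      rw [mem_restr, Finset.mem_filter, Pc] at hi
      exact (hFx i).2 (right_ne_zero_of_mul hi.2)
  have hQmem : ∀ z, Q z ∈ solid d := by
    intro z
    have h0 : (0 : ℝ) ≤ z.2 := z.2.2.1
    have h1 : (z.2 : ℝ) ≤ 1 := z.2.2.2
    have hb : ‖(h z.1).1‖ ≤ 1 := by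
      have := (h z.1).2
      rwa [Metric.mem_closedBall, dist_zero_right] at this
    refine ⟨?_, by rw [Ql]; exact h1⟩
    rw [Qi, Ql, norm_smul, Real.norm_of_nonneg h0]
    nlinarith
  have hPcont : Continuous P := by
    refine continuous_pi fun j => ?_
    refine Fin.lastCases ?_ (fun i => ?_) j
    · simp only [Pl]
      exact continuous_const.sub (continuous_subtype_val.comp continuous_snd)
    · simp only [Pc]
      exact (continuous_subtype_val.comp continuous_snd).mul
        ((continuous_apply i).comp (continuous_subtype_val.comp continuous_fst))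
  have hQcont : Continuous Q := by
    refine (PiLp.continuous_toLp 2 (fun _ : Fin (d + 1) => ℝ)).comp (continuous_pi fun j => ?_)
    refine Fin.lastCases ?_ (fun i => ?_) j
    · simp only [Fin.snoc_last]
      exact continuous_subtype_val.comp continuous_snd
    · simp only [Fin.snoc_castSucc]
      refine (continuous_subtype_val.comp continuous_snd).mul ?_
      have h1 : Continuous (fun y : EuclideanSpace ℝ (Fin d) => y i) := by fun_prop
      exact h1.comp (continuous_subtype_val.comp (h.continuous.comp continuous_fst))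
  have key : ∀ z w, P z = P w ↔ Q z = Q w := by
    intro z w
    constructor
    · intro he
      have h2 : (z.2 : ℝ) = w.2 := by
        have := congrFun he (Fin.last N)
        rw [Pl, Pl] at this; linarith
      by_cases h0 : (w.2 : ℝ) = 0
      · ext j
        refine Fin.lastCases ?_ (fun i => ?_) j
        · rw [Ql, Ql, h2]
        · rw [Qc, Qc, h2, h0, zero_mul, zero_mul]
      · have h3 : z.1 = w.1 := by
          apply Subtype.ext
          funext i
          have := congrFun he i.castSucc
          rw [Pc, Pc, h2] at this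
          exact mul_left_cancel₀ h0 this
        ext j
        refine Fin.lastCases ?_ (fun i => ?_) j
        · rw [Ql, Ql, h2]
        · rw [Qc, Qc, h2, h3]
    · intro he
      have h2 : (z.2 : ℝ) = w.2 := by
        have : Q z (Fin.last d) = Q w (Fin.last d) := by rw [he]
        rwa [Ql, Ql] at this
      by_cases h0 : (w.2 : ℝ) = 0
      · funext j
        refine Fin.lastCases ?_ (fun i => ?_) j
        · rw [Pl, Pl, h2]
        · rw [Pc, Pc, h2, h0, zero_mul, zero_mul]
      · have h3 : h z.1 = h w.1 := by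
          apply Subtype.ext
          ext i
          have : Q z i.castSucc = Q w i.castSucc := by rw [he]
          rw [Qc, Qc, h2] at this
          exact mul_left_cancel₀ h0 this
        have h4 : z.1 = w.1 := h.injective h3
        funext j
        refine Fin.lastCases ?_ (fun i => ?_) j
        · rw [Pl, Pl, h2]
        · rw [Pc, Pc, h2, h4]
  have hPsurj : ∀ y ∈ realization (cone Δ), ∃ z, P z = y := by
    rintro y ⟨hy0, hy1, F, hF, hFy⟩
    rw [Fin.sum_univ_castSucc] at hy1
    have hs0 : 0 ≤ ∑ i : Fin N, y i.castSucc := Finset.sum_nonneg fun i _ => hy0 _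
    have hl := hy0 (Fin.last N)
    have ht : (∑ i : Fin N, y i.castSucc) ∈ Set.Icc (0 : ℝ) 1 := ⟨hs0, by linarith⟩
    by_cases h0 : ∑ i : Fin N, y i.castSucc = 0
    · refine ⟨(x0, ⟨0, by simp⟩), ?_⟩
      have h1 := (Finset.sum_eq_zero_iff_of_nonneg (fun i _ => hy0 (Fin.castSucc i))).1 h0
      funext j
      refine Fin.lastCases ?_ (fun i => ?_) j
      · rw [Pl]
        show (1 : ℝ) - 0 = _
        linarith
      · rw [Pc, h1 i (Finset.mem_univ i)]
        show (0 : ℝ) * _ = 0
        rw [zero_mul]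
    · have hpos : 0 < ∑ i : Fin N, y i.castSucc := lt_of_le_of_ne hs0 (Ne.symm h0)
      refine ⟨(⟨fun i => y i.castSucc / ∑ i : Fin N, y i.castSucc, ?_, ?_, ?_⟩,
        ⟨∑ i : Fin N, y i.castSucc, ht⟩), ?_⟩
      · exact fun i => div_nonneg (hy0 _) hs0
      · rw [← Finset.sum_div, div_self h0]
      · refine ⟨restr F, hF, fun i => ?_⟩
        rw [mem_restr, hFy]
        simp [h0]
      · funext j
        refine Fin.lastCases ?_ (fun i => ?_) j
        · rw [Pl]
          show (1 : ℝ) - ∑ i : Fin N, y i.castSucc = _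
          linarith
        · rw [Pc]
          show (∑ i : Fin N, y i.castSucc) * (y i.castSucc / ∑ i : Fin N, y i.castSucc) = _
          field_simp
  have hQsurj : ∀ y ∈ solid d, ∃ z, Q z = y := by
    rintro y ⟨hy1, hy2⟩
    have hl : 0 ≤ y (Fin.last d) := (norm_nonneg _).trans hy1
    by_cases h0 : y (Fin.last d) = 0
    · refine ⟨(x0, ⟨0, by simp⟩), ?_⟩
      rw [h0] at hy1
      have h1 : ini y = 0 := norm_le_zero_iff.1 hy1
      ext j
      refine Fin.lastCases ?_ (fun i => ?_) j
      · rw [Ql, h0]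
      · rw [Qc]
        have h2 : ini y i = 0 := by rw [h1]; rfl
        rw [ini_apply] at h2
        rw [h2]
        show (0 : ℝ) * _ = 0
        rw [zero_mul]
    · have hpos : 0 < y (Fin.last d) := lt_of_le_of_ne hl (Ne.symm h0)
      have hb : (y (Fin.last d))⁻¹ • ini y ∈
          Metric.closedBall (0 : EuclideanSpace ℝ (Fin d)) 1 := by
        rw [Metric.mem_closedBall, dist_zero_right, norm_smul, norm_inv,
          Real.norm_of_nonneg hl, inv_mul_le_iff₀ hpos, mul_one]
        exact hy1
      refine ⟨(h.symm ⟨_, hb⟩, ⟨y (Fin.last d), hl, hy2⟩), ?_⟩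
      ext j
      refine Fin.lastCases ?_ (fun i => ?_) j
      · rw [Ql]
      · rw [Qc, h.apply_symm_apply]
        show y (Fin.last d) * ((y (Fin.last d))⁻¹ • ini y) i = _
        rw [PiLp.smul_apply, ini_apply, smul_eq_mul]
        field_simp
  obtain ⟨f⟩ := homeo_of_fibers (p := fun z => (⟨P z, hPmem z⟩ : realization (cone Δ)))
    (q := fun z => (⟨Q z, hQmem z⟩ : solid d)) (hPcont.subtype_mk _) (hQcont.subtype_mk _)
    (fun y => by
      obtain ⟨z, hz⟩ := hPsurj y.1 y.2
      exact ⟨z, Subtype.ext hz⟩)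
    (fun y => by
      obtain ⟨z, hz⟩ := hQsurj y.1 y.2
      exact ⟨z, Subtype.ext hz⟩)
    (fun z w => by
      rw [Subtype.mk.injEq, Subtype.mk.injEq]
      exact key z w)
  obtain ⟨g⟩ := solid_homeo d
  exact ⟨f.trans g⟩

end Pool.Agent.Work.MP_47f029_co
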