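import Mathlib

set_option autoImplicit false

/-! Realizations of abstract simplicial complexes given by lists of facets (bitmasks), and the
homeomorphism of realizations given by a generalized bistellar move. -/

namespace Pool.Agent.Work.MP_47f029_co

open Finset

variable {N : ℕ}

/-- The support of `x` is contained in the set coded by the bitmask `F`. -/
def Supp (x : Fin N → ℝ) (F : ℕ) : Prop := ∀ i : Fin N, x i ≠ 0 → F.testBit i = true

/-- Realization of the complex whose facets are the bitmasks in the list `L`. -/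
def Rz (N : ℕ) (L : List ℕ) : Set (Fin N → ℝ) :=
  {x | (∀ i, 0 ≤ x i) ∧ ∑ i, x i = 1 ∧ ∃ F ∈ L, Supp x F}

/-- Minimum of the coordinates in `s`. -/
noncomputable def mn (s : Finset (Fin N)) (hs : s.Nonempty) (x : Fin N → ℝ) : ℝ :=
  s.inf' hs x

/-- The move: subtract the minimum over `s` from the coordinates in `s`, and distribute it
over the coordinates in `t`. -/
noncomputable def mv (s t : Finset (Fin N)) (hs : s.Nonempty) (x : Fin N → ℝ) : Fin N → ℝ :=
  fun i => x i - (if i ∈ s then mn s hs x else 0)
    + (if i ∈ t then (s.card : ℝ) / t.card * mn s hs x else 0)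

theorem continuous_mn (s : Finset (Fin N)) (hs : s.Nonempty) : Continuous (mn s hs) := by
  unfold mn
  exact Continuous.finset_inf'_apply hs (fun i _ => continuous_apply i)

theorem continuous_mv (s t : Finset (Fin N)) (hs : s.Nonempty) : Continuous (mv s t hs) := by
  refine continuous_pi fun i => ?_
  unfold mv
  refine ((continuous_apply i).sub ?_).add ?_
  · split_ifs
    · exact continuous_mn s hs
    · exact continuous_const
  · split_ifs
    · exact continuous_const.mul (continuous_mn s hs)
    · exact continuous_const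

theorem mn_le (s : Finset (Fin N)) (hs : s.Nonempty) (x : Fin N → ℝ) {i : Fin N} (hi : i ∈ s) :
    mn s hs x ≤ x i := Finset.inf'_le _ hi

theorem exists_mn (s : Finset (Fin N)) (hs : s.Nonempty) (x : Fin N → ℝ) :
    ∃ i ∈ s, mn s hs x = x i := Finset.exists_mem_eq_inf' hs x

theorem mn_nonneg (s : Finset (Fin N)) (hs : s.Nonempty) (x : Fin N → ℝ) (hx : ∀ i, 0 ≤ x i) :
    0 ≤ mn s hs x := by
  obtain ⟨i, _, h⟩ := exists_mn s hs x
  rw [h]; exact hx i

theorem mn_mv (s t : Finset (Fin N)) (hs : s.Nonempty) (ht : t.Nonempty) (hd : Disjoint s t)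
    (x : Fin N → ℝ) (h0 : mn t ht x = 0) :
    mn t ht (mv s t hs x) = (s.card : ℝ) / t.card * mn s hs x := by
  have key : ∀ i ∈ t, mv s t hs x i = x i + (s.card : ℝ) / t.card * mn s hs x := by
    intro i hi
    have hns : i ∉ s := fun h => (Finset.disjoint_left.1 hd) h hi
    simp [mv, hi, hns]
  apply le_antisymm
  · obtain ⟨j, hj, hj'⟩ := exists_mn t ht x
    have := mn_le t ht (mv s t hs x) hj
    rw [key j hj, ← hj', h0, zero_add] at this
    exact this
  · obtain ⟨j, hj, hj'⟩ := exists_mn t ht (mv s t hs x)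
    rw [hj', key j hj]
    have := mn_le t ht x hj
    rw [h0] at this
    linarith

theorem mv_mv (s t : Finset (Fin N)) (hs : s.Nonempty) (ht : t.Nonempty) (hd : Disjoint s t)
    (x : Fin N → ℝ) (h0 : mn t ht x = 0) :
    mv t s ht (mv s t hs x) = x := by
  funext i
  have h1 := mn_mv s t hs ht hd x h0
  have hsc : (s.card : ℝ) ≠ 0 := by exact_mod_cast hs.card_pos.ne'
  have htc : (t.card : ℝ) ≠ 0 := by exact_mod_cast ht.card_pos.ne'
  have e : mv t s ht (mv s t hs x) i = mv s t hs x i
      - (if i ∈ t then mn t ht (mv s t hs x) else 0)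
      + (if i ∈ s then (t.card : ℝ) / s.card * mn t ht (mv s t hs x) else 0) := rfl
  rw [e, h1]
  by_cases his : i ∈ s
  · have hit : i ∉ t := (Finset.disjoint_left.1 hd) his
    simp only [mv, his, hit, if_true, if_false]
    field_simp
    ring
  · by_cases hit : i ∈ t
    · simp [mv, his, hit]
    · simp [mv, his, hit]

theorem sum_mv (s t : Finset (Fin N)) (hs : s.Nonempty) (ht : t.Nonempty) (x : Fin N → ℝ) :
    ∑ i, mv s t hs x i = ∑ i, x i := by
  have htc : (t.card : ℝ) ≠ 0 := by exact_mod_cast ht.card_pos.ne'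
  simp only [mv, Finset.sum_add_distrib, Finset.sum_sub_distrib]
  rw [Finset.sum_ite_mem, Finset.sum_ite_mem, Finset.univ_inter, Finset.univ_inter,
    Finset.sum_const, Finset.sum_const, nsmul_eq_mul, nsmul_eq_mul]
  field_simp
  ring

theorem mv_nonneg (s t : Finset (Fin N)) (hs : s.Nonempty) (x : Fin N → ℝ)
    (hx : ∀ i, 0 ≤ x i) (i : Fin N) : 0 ≤ mv s t hs x i := by
  have h1 := mn_nonneg s hs x hx
  have h2 : 0 ≤ (s.card : ℝ) / t.card * mn s hs x := by positivity
  have h3 : 0 ≤ (if i ∈ t then (s.card : ℝ) / t.card * mn s hs x else 0) := by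
    split_ifs
    · exact h2
    · exact le_rfl
  have h4 : 0 ≤ x i - (if i ∈ s then mn s hs x else 0) := by
    split_ifs with h
    · have := mn_le s hs x h; linarith
    · simpa using hx i
  unfold mv
  linarith

/-- `a ⊆ b` for bitmasks. -/
def subm (a b : ℕ) : Bool := (a &&& b) == a

theorem subm_iff (a b : ℕ) : subm a b = true ↔ ∀ i, a.testBit i = true → b.testBit i = true := by
  unfold subm
  rw [beq_iff_eq]
  constructor
  · intro h i hi
    rw [← h, Nat.testBit_land] at hi
    simp only [Bool.and_eq_true] at hi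
    exact hi.2
  · intro h
    apply Nat.eq_of_testBit_eq
    intro i
    rw [Nat.testBit_land]
    cases hi : a.testBit i with
    | false => simp
    | true => simp [h i hi]

/-- The set of `i : Fin N` in the bitmask `m`. -/
def bits (N : ℕ) (m : ℕ) : Finset (Fin N) := Finset.univ.filter (fun i => m.testBit i = true)

@[simp] theorem mem_bits (m : ℕ) (i : Fin N) : i ∈ bits N m ↔ m.testBit i = true := by
  simp [bits]

/-- Half of the conditions for the move `s → t` from `L` to `L'`. -/
def good (N : ℕ) (L L' : List ℕ) (s t : ℕ) : Bool :=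
  L.all (fun F => !subm t F &&
    (if subm s F then
      (List.range N).all (fun i => !s.testBit i || L'.elem (((F ||| 2 ^ i) ^^^ 2 ^ i) ||| t))
     else L'.elem F))

theorem testBit_erase (F i j : ℕ) :
    ((F ||| 2 ^ i) ^^^ 2 ^ i).testBit j = (F.testBit j && (j != i)) := by
  rw [Nat.testBit_xor, Nat.testBit_lor, Nat.testBit_two_pow]
  by_cases h : i = j
  · subst h; simp
  · have h' : j ≠ i := fun e => h e.symm
    simp [h, h']

/-- bitmasks below `2 ^ N` -/
def small (N : ℕ) (s : ℕ) : Bool := Nat.blt s (2 ^ N)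

theorem lt_of_testBit {N s i : ℕ} (hs : small N s = true) (hi : s.testBit i = true) : i < N := by
  by_contra hcon
  push Not at hcon
  have h1 : s < 2 ^ N := by simpa [small, Nat.blt_eq] using hs
  have h2 : s < 2 ^ i := lt_of_lt_of_le h1 (Nat.pow_le_pow_right (by norm_num) hcon)
  rw [Nat.testBit_lt_two_pow h2] at hi
  exact absurd hi (by simp)

theorem mn_eq_zero {L L' : List ℕ} {s t : ℕ} (hg : good N L L' s t = true) (hts : small N t = true)
    (ht : (bits N t).Nonempty) {x : Fin N → ℝ} (hx : x ∈ Rz N L) : mn (bits N t) ht x = 0 := by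
  obtain ⟨hx0, hx1, F, hF, hxF⟩ := hx
  have h1 := (List.all_eq_true.1 hg) F hF
  simp only [Bool.and_eq_true, Bool.not_eq_true'] at h1
  have h2 : ¬ subm t F = true := by rw [h1.1]; simp
  rw [subm_iff] at h2
  push Not at h2
  obtain ⟨i, hi, hi'⟩ := h2
  have hiN : i < N := lt_of_testBit hts hi
  have hxi : x ⟨i, hiN⟩ = 0 := by
    by_contra hne
    exact hi' (hxF ⟨i, hiN⟩ hne)
  apply le_antisymm
  · have := mn_le (bits N t) ht x (i := ⟨i, hiN⟩) (by simpa using hi)
    rw [hxi] at this
    exact this
  · exact mn_nonneg _ _ _ hx0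

theorem mv_mem {L L' : List ℕ} {s t : ℕ} (hg : good N L L' s t = true) (hss : small N s = true)
    (hs : (bits N s).Nonempty) (ht : (bits N t).Nonempty)
    {x : Fin N → ℝ} (hx : x ∈ Rz N L) : mv (bits N s) (bits N t) hs x ∈ Rz N L' := by
  obtain ⟨hx0, hx1, F, hF, hxF⟩ := hx
  refine ⟨mv_nonneg _ _ hs x hx0, by rw [sum_mv _ _ hs ht, hx1], ?_⟩
  have h1 := (List.all_eq_true.1 hg) F hF
  simp only [Bool.and_eq_true, Bool.not_eq_true'] at h1
  have h2 := h1.2
  by_cases hsF : subm s F = true
  · rw [if_pos hsF, List.all_eq_true] at h2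
    obtain ⟨i, hi, hmi⟩ := exists_mn (bits N s) hs x
    have hi' : s.testBit i = true := by simpa using hi
    have h3 := h2 (i : ℕ) (List.mem_range.2 i.2)
    simp only [hi', Bool.not_true, Bool.false_or] at h3
    rw [List.elem_iff] at h3
    refine ⟨_, h3, ?_⟩
    intro j hj
    rw [Nat.testBit_lor, testBit_erase]
    by_cases hjt : t.testBit j = true
    · simp [hjt]
    · have hjt' : j ∉ bits N t := by simpa using hjt
      have e : mv (bits N s) (bits N t) hs x j
          = x j - (if j ∈ bits N s then mn (bits N s) hs x else 0) := by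
        unfold mv; rw [if_neg hjt', add_zero]
      rw [e] at hj
      have hji : j ≠ i := by
        rintro rfl
        apply hj
        rw [if_pos hi, hmi, sub_self]
      have hji' : (j : ℕ) ≠ (i : ℕ) := fun h => hji (Fin.ext h)
      have hFj : F.testBit j = true := by
        by_cases hjs : j ∈ bits N s
        · exact (subm_iff s F).1 hsF j (by simpa using hjs)
        · rw [if_neg hjs, sub_zero] at hj
          exact hxF j hj
      simp [hFj, hji']
  · rw [if_neg hsF, List.elem_iff] at h2
    refine ⟨F, h2, ?_⟩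
    rw [subm_iff] at hsF
    push Not at hsF
    obtain ⟨i, hi, hi'⟩ := hsF
    have hiN : i < N := lt_of_testBit hss hi
    have hxi : x ⟨i, hiN⟩ = 0 := by
      by_contra hne
      exact hi' (hxF ⟨i, hiN⟩ hne)
    have hm : mn (bits N s) hs x = 0 := by
      apply le_antisymm
      · have := mn_le (bits N s) hs x (i := ⟨i, hiN⟩) (by simpa using hi)
        rw [hxi] at this
        exact this
      · exact mn_nonneg _ _ _ hx0
    intro j hj
    apply hxF j
    unfold mv at hj
    rw [hm] at hj
    simpa using hj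

/-- Full check of a move. -/
def goodMove (N : ℕ) (L L' : List ℕ) (s t : ℕ) : Bool :=
  good N L L' s t && good N L' L t s && small N s && small N t && (s != 0) && (t != 0)
    && ((s &&& t) == 0)

theorem bits_nonempty {s : ℕ} (hs : small N s = true) (h0 : s ≠ 0) : (bits N s).Nonempty := by
  obtain ⟨i, hi⟩ := Nat.exists_testBit_of_ne_zero h0
  exact ⟨⟨i, lt_of_testBit hs hi⟩, by simpa using hi⟩

theorem homeo_of_goodMove {L L' : List ℕ} {s t : ℕ} (h : goodMove N L L' s t = true) :
    Nonempty (Rz N L ≃ₜ Rz N L') := by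
  simp only [goodMove, Bool.and_eq_true, bne_iff_ne, ne_eq, beq_iff_eq] at h
  obtain ⟨⟨⟨⟨⟨⟨h1, h2⟩, h3⟩, h4⟩, h5⟩, h6⟩, h7⟩ := h
  have hs := bits_nonempty h3 h5
  have ht := bits_nonempty h4 h6
  have hd : Disjoint (bits N s) (bits N t) := by
    rw [Finset.disjoint_left]
    intro i hi hi'
    rw [mem_bits] at hi hi'
    have : (s &&& t).testBit i = true := by rw [Nat.testBit_land, hi, hi']; rfl
    rw [h7] at this
    simp at this
  refine ⟨{ toFun := fun x => ⟨mv (bits N s) (bits N t) hs x.1, mv_mem h1 h3 hs ht x.2⟩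
            invFun := fun x => ⟨mv (bits N t) (bits N s) ht x.1, mv_mem h2 h4 ht hs x.2⟩
            left_inv := ?_
            right_inv := ?_
            continuous_toFun := ?_
            continuous_invFun := ?_ }⟩
  · intro x
    exact Subtype.ext (mv_mv _ _ hs ht hd _ (mn_eq_zero h1 h4 ht x.2))
  · intro x
    exact Subtype.ext (mv_mv _ _ ht hs hd.symm _ (mn_eq_zero h2 h3 hs x.2))
  · exact ((continuous_mv _ _ hs).comp continuous_subtype_val).subtype_mk _
  · exact ((continuous_mv _ _ ht).comp continuous_subtype_val).subtype_mk _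

end Pool.Agent.Work.MP_47f029_co
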