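import Pool.Agent.Work.MP_47f029_co.Data

set_option autoImplicit false

namespace Pool.Agent.Work.MP_47f029_co

/-- `F` covers `G` with respect to the restriction map `r`. -/
def cov (r : ℕ → ℕ) (F G : ℕ) : Bool := subm (r F) G && subm G F

theorem piece (Fs Gs As : List ℕ) (tb : List (List ℕ × ℕ))
    (htb : mkTbl Gs As (enc (fun G => G == 1 || G == 2) Gs) Fs = tb)
    (hs : search tb 0 = false) (hok : okData ball Fs Gs As = true) (r : ℕ → ℕ)
    (hr : ∀ F ∈ ball, subm (r F) F = true)
    (hu : ∀ G, ball.any (fun F => subm G F) = true → ∃! F, F ∈ ball ∧ cov r F G = true) :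
    ∃ F ∈ Fs, cov r F 1 = true ∨ cov r F 2 = true := by
  by_contra hcon
  push Not at hcon
  simp only [okData, Bool.and_eq_true, List.all_eq_true, decide_eq_true_eq, List.elem_iff,
    Nat.blt_eq] at hok
  obtain ⟨⟨h1, h2⟩, h3⟩ := hok
  have uniq : ∀ F ∈ Fs, ∀ F' ∈ Fs, ∀ G ∈ Gs, (subm (r F) G && subm G F) = true →
      (subm (r F') G && subm G F') = true → F = F' := by
    intro F hF F' hF' G hG e1 e2
    obtain ⟨F0, _, hF0⟩ := hu G (h3 G hG).1
    rw [hF0 F ⟨(h1 F hF).1, e1⟩, hF0 F' ⟨(h1 F' hF').1, e2⟩]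
  have key := search_sound Gs As [1, 2] r Fs []
    (fun F hF => ⟨hr F (h1 F hF).1, (h1 F hF).2⟩)
    (fun F _ F' hF' => absurd hF' (by simp))
    (by
      refine List.Pairwise.imp_of_mem ?_ h2
      intro F F' hF hF' hne G hG hh
      exact hne (uniq F hF F' hF' G hG hh.1 hh.2))
    (by
      intro G hG hA
      obtain ⟨F0, ⟨hF0, hF0'⟩, _⟩ := hu G (h3 G hG).1
      have h4 := (h3 G hG).2
      rw [Bool.or_eq_true, hA] at h4
      have h5 : ball.all (fun F => !subm G F || Fs.elem F) = true := by simpa using h4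
      rw [List.all_eq_true] at h5
      have h6 := h5 F0 hF0
      have h7 : subm G F0 = true := by
        unfold cov at hF0'
        rw [Bool.and_eq_true] at hF0'
        exact hF0'.2
      rw [h7] at h6
      simp only [Bool.not_true, Bool.false_or, List.elem_iff] at h6
      exact ⟨F0, Or.inr h6, hF0'⟩)
    (by
      intro F hF G hG hf
      have hf' : G = 1 ∨ G = 2 := by simpa using hf
      have h4 := hcon F hF
      rcases hf' with rfl | rfl
      · simpa [cov] using h4.1
      · simpa [cov] using h4.2)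
  have e1 : enc (fun G => ([1, 2] : List ℕ).elem G) Gs = enc (fun G => G == 1 || G == 2) Gs := by
    apply enc_congr
    intro G _
    cases h1 : (G == 1) <;> cases h2 : (G == 2) <;> simp only [List.elem, h1, h2] <;> rfl
  have e2 : enc (fun G => ([] : List ℕ).any (fun F => subm (r F) G && subm G F)) Gs = 0 := by
    apply enc_false
    intro G _
    rfl
  rw [e1, e2, htb, hs] at key
  exact absurd key (by simp)

theorem disj01 : fs0.all (fun F => !fs1.elem F) = true := by decide
theorem disj02 : fs0.all (fun F => !fs2.elem F) = true := by decide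
theorem disj12 : fs1.all (fun F => !fs2.elem F) = true := by decide

theorem face1 : ball.any (fun F => subm 1 F) = true := by decide
theorem face2 : ball.any (fun F => subm 2 F) = true := by decide

theorem sub_ball {Fs Gs As : List ℕ} (hok : okData ball Fs Gs As = true) {F : ℕ} (hF : F ∈ Fs) :
    F ∈ ball := by
  simp only [okData, Bool.and_eq_true, List.all_eq_true, decide_eq_true_eq, List.elem_iff,
    Nat.blt_eq] at hok
  exact (hok.1.1 F hF).1

theorem disj_ne {L L' : List ℕ} (h : L.all (fun F => !L'.elem F) = true) {F F' : ℕ}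
    (hF : F ∈ L) (hF' : F' ∈ L') : F ≠ F' := by
  rintro rfl
  rw [List.all_eq_true] at h
  have := h F hF
  rw [List.elem_eq_true_of_mem hF'] at this
  simp at this

/-- The complex `ball` is not partitionable. -/
theorem not_partitionable (r : ℕ → ℕ) (hr : ∀ F ∈ ball, subm (r F) F = true)
    (hu : ∀ G, ball.any (fun F => subm G F) = true → ∃! F, F ∈ ball ∧ cov r F G = true) :
    False := by
  obtain ⟨A0, hA0, a0⟩ := piece fs0 gs0 as0 tb0 tb0_eq tb0_search ok0 r hr hu
  obtain ⟨A1, hA1, a1⟩ := piece fs1 gs1 as1 tb1 tb1_eq tb1_search ok1 r hr hu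
  obtain ⟨A2, hA2, a2⟩ := piece fs2 gs2 as2 tb2 tb2_eq tb2_search ok2 r hr hu
  have n01 := disj_ne disj01 hA0 hA1
  have n02 := disj_ne disj02 hA0 hA2
  have n12 := disj_ne disj12 hA1 hA2
  have b0 := sub_ball ok0 hA0
  have b1 := sub_ball ok1 hA1
  have b2 := sub_ball ok2 hA2
  obtain ⟨U, _, hU⟩ := hu 1 face1
  obtain ⟨V, _, hV⟩ := hu 2 face2
  have c0 : A0 = U ∨ A0 = V := a0.imp (fun h => hU A0 ⟨b0, h⟩) (fun h => hV A0 ⟨b0, h⟩)
  have c1 : A1 = U ∨ A1 = V := a1.imp (fun h => hU A1 ⟨b1, h⟩) (fun h => hV A1 ⟨b1, h⟩)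
  have c2 : A2 = U ∨ A2 = V := a2.imp (fun h => hU A2 ⟨b2, h⟩) (fun h => hV A2 ⟨b2, h⟩)
  rcases c0 with c0 | c0 <;> rcases c1 with c1 | c1 <;> rcases c2 with c2 | c2
  all_goals first
    | exact n01 (c0.trans c1.symm)
    | exact n02 (c0.trans c2.symm)
    | exact n12 (c1.trans c2.symm)

end Pool.Agent.Work.MP_47f029_co
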