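import Pool.Agent.Work.MP_47f029_co.Moves

set_option autoImplicit false

/-! A verified exhaustive search showing that certain relative complexes are not partitionable. -/

namespace Pool.Agent.Work.MP_47f029_co

/-- Encode a predicate on a list of faces as a bitmask. -/
def enc (p : ℕ → Bool) : List ℕ → ℕ
  | [] => 0
  | G :: rest => Nat.bit (p G) (enc p rest)

theorem enc_and (p q : ℕ → Bool) : ∀ Gs : List ℕ,
    enc p Gs &&& enc q Gs = enc (fun G => p G && q G) Gs
  | [] => by simp [enc]
  | G :: rest => by
    rw [enc, enc, enc, Nat.land_bit, enc_and p q rest]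

theorem enc_or (p q : ℕ → Bool) : ∀ Gs : List ℕ,
    enc p Gs ||| enc q Gs = enc (fun G => p G || q G) Gs
  | [] => by simp [enc]
  | G :: rest => by
    rw [enc, enc, enc, Nat.lor_bit, enc_or p q rest]

theorem enc_congr {p q : ℕ → Bool} : ∀ {Gs : List ℕ}, (∀ G ∈ Gs, p G = q G) →
    enc p Gs = enc q Gs
  | [], _ => rfl
  | G :: rest, h => by
    rw [enc, enc, h G (by simp), enc_congr (fun G' hG' => h G' (by simp [hG']))]

theorem enc_false {p : ℕ → Bool} : ∀ {Gs : List ℕ}, (∀ G ∈ Gs, p G = false) → enc p Gs = 0
  | [], _ => rfl
  | G :: rest, h => by
    rw [enc, h G (by simp), enc_false (fun G' hG' => h G' (by simp [hG']))]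
    rfl

/-- All submasks of `F` below `2 ^ n`. -/
def subsN : ℕ → ℕ → List ℕ
  | 0, _ => [0]
  | n + 1, F => if F.testBit n then subsN n F ++ (subsN n F).map (fun R => R ||| 2 ^ n)
      else subsN n F

theorem mem_subsN (F : ℕ) : ∀ (n R : ℕ), R < 2 ^ n → (∀ i, R.testBit i = true →
    F.testBit i = true) → R ∈ subsN n F
  | 0, R, h, _ => by
    have : R = 0 := by simpa using h
    simp [subsN, this]
  | n + 1, R, h, hF => by
    have h1 : R % 2 ^ n < 2 ^ n := Nat.mod_lt _ (by positivity)
    have h2 : R % 2 ^ n ∈ subsN n F := by
      apply mem_subsN F n _ h1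
      intro i hi
      rw [Nat.testBit_mod_two_pow] at hi
      simp only [Bool.and_eq_true] at hi
      exact hF i hi.2
    by_cases hb : R.testBit n = true
    · have hFn := hF n hb
      rw [subsN, if_pos hFn, List.mem_append]
      right
      rw [List.mem_map]
      refine ⟨_, h2, ?_⟩
      apply Nat.eq_of_testBit_eq
      intro i
      rw [Nat.testBit_lor, Nat.testBit_mod_two_pow, Nat.testBit_two_pow]
      rcases lt_trichotomy i n with hi | hi | hi
      · have : n ≠ i := by omega
        simp [hi, this]
      · subst hi
        simp [hb]
      · have e1 : R.testBit i = false := by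
          apply Nat.testBit_lt_two_pow
          exact lt_of_lt_of_le h (Nat.pow_le_pow_right (by norm_num) (by omega))
        have e2 : n ≠ i := by omega
        have e3 : ¬ i < n := by omega
        simp [e1, e2, e3]
    · have hb' : R.testBit n = false := by simpa using hb
      have hR : R % 2 ^ n = R := by
        apply Nat.eq_of_testBit_eq
        intro i
        rw [Nat.testBit_mod_two_pow]
        rcases lt_trichotomy i n with hi | hi | hi
        · simp [hi]
        · subst hi
          simp [hb']
        · have e1 : R.testBit i = false := by
            apply Nat.testBit_lt_two_pow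
            exact lt_of_lt_of_le h (Nat.pow_le_pow_right (by norm_num) (by omega))
          simp [e1]
      rw [hR] at h2
      rw [subsN]
      split_ifs
      · rw [List.mem_append]; left; exact h2
      · exact h2

/-- The options and the deadline mask for every facet. -/
def mkTbl (Gs As : List ℕ) (fb : ℕ) : List ℕ → List (List ℕ × ℕ)
  | [] => []
  | F :: rest =>
    (((subsN 21 F).map (fun R => enc (fun G => subm R G && subm G F) Gs)).filter
        (fun m => (m &&& fb) == 0),
      enc (fun G => (!(As.any (fun a => subm G a)) && subm G F)
        && !(rest.any (fun F' => subm G F'))) Gs) :: mkTbl Gs As fb rest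

/-- Exhaustive search. -/
def search : List (List ℕ × ℕ) → ℕ → Bool
  | [], _ => true
  | (opts, req) :: rest, used =>
    opts.any (fun m => (m &&& used) == 0 && ((used ||| m) &&& req) == req
      && search rest (used ||| m))

theorem search_sound (Gs As forb : List ℕ) (r : ℕ → ℕ) :
    ∀ (Fs done : List ℕ),
      (∀ F ∈ Fs, subm (r F) F = true ∧ F < 2 ^ 21) →
      (∀ F ∈ Fs, ∀ F' ∈ done, ∀ G ∈ Gs, ¬ ((subm (r F) G && subm G F) = true ∧
        (subm (r F') G && subm G F') = true)) →
      (List.Pairwise (fun F F' => ∀ G ∈ Gs, ¬ ((subm (r F) G && subm G F) = true ∧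
        (subm (r F') G && subm G F') = true)) Fs) →
      (∀ G ∈ Gs, As.any (fun a => subm G a) = false →
        ∃ F, (F ∈ done ∨ F ∈ Fs) ∧ (subm (r F) G && subm G F) = true) →
      (∀ F ∈ Fs, ∀ G ∈ Gs, forb.elem G = true → (subm (r F) G && subm G F) = false) →
      search (mkTbl Gs As (enc (fun G => forb.elem G) Gs) Fs)
        (enc (fun G => done.any (fun F => subm (r F) G && subm G F)) Gs) = true
  | [], done, _, _, _, _, _ => by simp [mkTbl, search]
  | F :: rest, done, h1, h2, h3, h4, h5 => by
    rw [mkTbl, search, List.any_eq_true]
    refine ⟨enc (fun G => subm (r F) G && subm G F) Gs, ?_, ?_⟩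
    · rw [List.mem_filter]
      constructor
      · rw [List.mem_map]
        refine ⟨r F, ?_, rfl⟩
        obtain ⟨h11, h12⟩ := h1 F (by simp)
        rw [subm_iff] at h11
        apply mem_subsN F 21 (r F) _ h11
        have hle : r F ≤ F := by
          have hh : (r F &&& F) = r F := by
            have := (h1 F (by simp)).1
            simpa [subm] using this
          rw [← hh]
          exact Nat.and_le_right
        omega
      · rw [enc_and, beq_iff_eq]
        apply enc_false
        intro G hG
        cases hf : forb.elem G with
        | false => simp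
        | true => rw [h5 F (by simp) G hG hf]; simp
    · rw [Bool.and_eq_true, Bool.and_eq_true]
      refine ⟨⟨?_, ?_⟩, ?_⟩
      · rw [enc_and, beq_iff_eq]
        apply enc_false
        intro G hG
        by_contra hcon
        have hcon' : ((subm (r F) G && subm G F) &&
          done.any (fun F => subm (r F) G && subm G F)) = true :=
          Bool.eq_true_of_not_eq_false hcon
        rw [Bool.and_eq_true, List.any_eq_true] at hcon'
        obtain ⟨e1, F', hF', e2⟩ := hcon'
        exact h2 F (by simp) F' hF' G hG ⟨e1, e2⟩
      · rw [enc_or, enc_and, beq_iff_eq]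
        apply enc_congr
        intro G hG
        cases hreq : ((!(As.any (fun a => subm G a)) && subm G F)
            && !(rest.any (fun F' => subm G F'))) with
        | false => simp
        | true =>
          rw [Bool.and_eq_true, Bool.and_eq_true, Bool.not_eq_true', Bool.not_eq_true'] at hreq
          obtain ⟨⟨q1, q2⟩, q3⟩ := hreq
          obtain ⟨F', hF', hc⟩ := h4 G hG q1
          rw [Bool.and_true, Bool.or_eq_true, List.any_eq_true]
          rcases hF' with hF' | hF'
          · left; exact ⟨F', hF', hc⟩
          · rcases List.mem_cons.1 hF' with rfl | hF''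
            · right; exact hc
            · exfalso
              rw [List.any_eq_false] at q3
              exact q3 F' hF'' (by rw [Bool.and_eq_true] at hc; exact hc.2)
      · rw [enc_or]
        have key : enc (fun G => (done.any fun F => subm (r F) G && subm G F) ||
              (subm (r F) G && subm G F)) Gs
            = enc (fun G => (F :: done).any (fun F => subm (r F) G && subm G F)) Gs := by
          apply enc_congr
          intro G _
          rw [List.any_cons, Bool.or_comm]
        rw [key]
        rw [List.pairwise_cons] at h3
        apply search_sound Gs As forb r rest (F :: done)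
        · intro F' hF'; exact h1 F' (by simp [hF'])
        · intro F' hF' F'' hF'' G hG hh
          rcases List.mem_cons.1 hF'' with rfl | hF''
          · exact h3.1 F' hF' G hG ⟨hh.2, hh.1⟩
          · exact h2 F' (by simp [hF']) F'' hF'' G hG hh
        · exact h3.2
        · intro G hG hA
          obtain ⟨F', hF', hc⟩ := h4 G hG hA
          refine ⟨F', ?_, hc⟩
          rcases hF' with hF' | hF'
          · left; simp [hF']
          · rcases List.mem_cons.1 hF' with rfl | hF''
            · left; simp
            · right; exact hF''
        · intro F' hF' G hG hf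
          exact h5 F' (by simp [hF']) G hG hf

/-- Side conditions on the data of one piece. -/
def okData (B Fs Gs As : List ℕ) : Bool :=
  Fs.all (fun F => B.elem F && Nat.blt F (2 ^ 21)) &&
  decide (Fs.Nodup) &&
  Gs.all (fun G => B.any (fun F => subm G F) &&
    (As.any (fun a => subm G a) || B.all (fun F => !subm G F || Fs.elem F)))

end Pool.Agent.Work.MP_47f029_co
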