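import Pool.Agent.Work.MP_47f029_co.Final
import Pool.Agent.Work.MP_47f029_co.Cones

set_option autoImplicit false

/-! A non-partitionable simplicial ball of every dimension `d ≥ 3`, as an abstract complex. -/

namespace Pool.Agent.Work.MP_47f029_co

open Finset

/-- The abstract complex with facets `ball`. -/
def base : Set (Finset (Fin 21)) := {s | ∃ F ∈ ball, s ⊆ bits 21 F}

theorem ball_card : ball.all (fun F => (bits 21 F).card == 4) = true := by decide +kernel

theorem bits_subset {G F : ℕ} (hG : small 21 G = true) :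
    bits 21 G ⊆ bits 21 F ↔ subm G F = true := by
  rw [subm_iff]
  constructor
  · intro h i hi
    have hiN := lt_of_testBit hG hi
    have h1 : (⟨i, hiN⟩ : Fin 21) ∈ bits 21 G := by simpa using hi
    simpa using h h1
  · intro h i hi
    rw [mem_bits] at hi ⊢
    exact h i hi

theorem isComplex_base : IsComplex base := by
  refine ⟨⟨53, by simp [ball], Finset.empty_subset _⟩, ?_⟩
  rintro F ⟨B, hB, hFB⟩ G hG
  exact ⟨B, hB, hG.trans hFB⟩

theorem isFacet_bits {F : ℕ} (hF : F ∈ ball) : IsFacet base (bits 21 F) := by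
  refine ⟨⟨F, hF, subset_rfl⟩, ?_⟩
  rintro G ⟨B, hB, hGB⟩ hFG
  have h1 : subm F B = true := (bits_subset (small_of_mem hF)).1 (hFG.trans hGB)
  have h2 := eq_of_subm hF hB h1
  subst h2
  exact Finset.Subset.antisymm hGB hFG

theorem isFacet_base {s : Finset (Fin 21)} : IsFacet base s ↔ ∃ F ∈ ball, bits 21 F = s := by
  constructor
  · rintro ⟨⟨F, hF, hsF⟩, hmax⟩
    exact ⟨F, hF, hmax _ (isFacet_bits hF).1 hsF⟩
  · rintro ⟨F, hF, rfl⟩
    exact isFacet_bits hF

theorem card_base {s : Finset (Fin 21)} (hs : IsFacet base s) : s.card = 4 := by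
  obtain ⟨F, hF, rfl⟩ := isFacet_base.1 hs
  have h := (List.all_eq_true.1 ball_card) F hF
  simpa using h

theorem ball_toFinset_card : ((ball.map (bits 21)).toFinset).card = 54 := by decide +kernel

theorem ncard_base : {s | IsFacet base s}.ncard = 54 := by
  have h : {s | IsFacet base s} = (((ball.map (bits 21)).toFinset : Finset (Finset (Fin 21))) :
      Set (Finset (Fin 21))) := by
    ext s
    rw [Set.mem_ofPred_eq, isFacet_base, Finset.mem_coe, List.mem_toFinset, List.mem_map]
  rw [h, Set.ncard_coe_finset, ball_toFinset_card]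

theorem realization_base : realization base = Rz 21 ball := by
  ext x
  constructor
  · rintro ⟨h0, h1, G, ⟨F, hF, hGF⟩, hx⟩
    exact ⟨h0, h1, F, hF, fun i hi => by simpa using hGF ((hx i).2 hi)⟩
  · rintro ⟨h0, h1, F, hF, hx⟩
    classical
    refine ⟨h0, h1, Finset.univ.filter (fun i => x i ≠ 0), ⟨F, hF, ?_⟩, by simp⟩
    intro i hi
    rw [Finset.mem_filter] at hi
    rw [mem_bits]
    exact hx i hi.2

theorem homeo_base :
    Nonempty (realization base ≃ₜ Metric.closedBall (0 : EuclideanSpace ℝ (Fin 3)) 1) := by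
  rw [realization_base]
  obtain ⟨f2⟩ := ball_homeo
  obtain ⟨f3⟩ := rz_homeo_T3
  obtain ⟨f4⟩ := T3_homeo
  exact ⟨(f2.trans f3).trans f4⟩

theorem not_partitionable_base : ¬ Partitionable base := by
  rintro ⟨R, h1, h2⟩
  have hr : ∀ F : ℕ, ∃ m : ℕ, ∀ i, m.testBit i = true ↔
      (i < 21 ∧ ∃ h : i < 21, (⟨i, h⟩ : Fin 21) ∈ R (bits 21 F)) := fun F => exists_mask 21 _
  choose r hr using hr
  have hrF : ∀ F ∈ ball, subm (r F) F = true := by
    intro F hF
    rw [subm_iff]
    intro i hi
    obtain ⟨_, h, hm⟩ := (hr F i).1 hi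
    have := h1 _ (isFacet_bits hF) hm
    simpa using this
  have hcov : ∀ F ∈ ball, ∀ G, small 21 G = true →
      ((R (bits 21 F) ⊆ bits 21 G ∧ bits 21 G ⊆ bits 21 F) ↔ cov r F G = true) := by
    intro F hF G hG
    unfold cov
    rw [Bool.and_eq_true, bits_subset hG, subm_iff (r F) G]
    refine and_congr_left fun _ => ?_
    constructor
    · intro h i hi
      obtain ⟨_, hi', hm⟩ := (hr F i).1 hi
      simpa using h hm
    · intro h v hv
      rw [mem_bits]
      exact h v ((hr F v).2 ⟨v.2, v.2, hv⟩)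
  apply not_partitionable r hrF
  intro G hG
  rw [List.any_eq_true] at hG
  obtain ⟨F0, hF0, hG0⟩ := hG
  have hGs := small_of_subm (small_of_mem hF0) hG0
  obtain ⟨s, ⟨hs1, hs2, hs3⟩, huniq⟩ := h2 (bits 21 G) ⟨F0, hF0, (bits_subset hGs).2 hG0⟩
  obtain ⟨F, hF, rfl⟩ := isFacet_base.1 hs1
  refine ⟨F, ⟨hF, (hcov F hF G hGs).1 ⟨hs2, hs3⟩⟩, ?_⟩
  rintro F' ⟨hF', hc⟩
  have h3 := (hcov F' hF' G hGs).2 hc
  have h4 := huniq (bits 21 F') ⟨isFacet_bits hF', h3.1, h3.2⟩
  exact eq_of_subm hF' hF ((bits_subset (small_of_mem hF')).1 h4.le)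

theorem all_dims (k : ℕ) : ∃ Δ : Set (Finset (Fin (21 + k))), IsComplex Δ ∧
    (∀ F, IsFacet Δ F → F.card = 3 + k + 1) ∧ {F | IsFacet Δ F}.ncard = 54 ∧
    Nonempty (realization Δ ≃ₜ Metric.closedBall (0 : EuclideanSpace ℝ (Fin (3 + k))) 1) ∧
    ¬ Partitionable Δ := by
  induction k with
  | zero => exact ⟨base, isComplex_base, fun F hF => card_base hF, ncard_base, homeo_base,
      not_partitionable_base⟩
  | succ k ih =>
    obtain ⟨Δ, h1, h2, h3, h4, h5⟩ := ih
    refine ⟨cone Δ, isComplex_cone h1, ?_, ?_, cone_ball h1 h4,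
      fun h => h5 (partitionable_of_cone h)⟩
    · intro F hF
      have hF' := isFacet_cone.1 hF
      rw [← up_restr hF'.1, card_up, h2 _ hF'.2]
      rfl
    · have e : {F | IsFacet (cone Δ) F} = up '' {F | IsFacet Δ F} := by
        ext s
        rw [Set.mem_ofPred_eq, isFacet_cone, Set.mem_image]
        constructor
        · rintro ⟨hl, hs⟩
          exact ⟨restr s, hs, up_restr hl⟩
        · rintro ⟨F, hF, rfl⟩
          exact ⟨last_mem_up, by rw [restr_up]; exact hF⟩
      have hinj : Function.Injective (up (N := 21 + k)) := by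
        intro F G hFG
        rw [← restr_up F, hFG, restr_up]
      exact (congrArg Set.ncard e).trans ((Set.ncard_image_of_injective _ hinj).trans h3)

end Pool.Agent.Work.MP_47f029_co
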