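import Mathlib

set_option autoImplicit false

/-! Finite abstract simplicial complexes on the vertex set `Fin N`, their geometric realization and
partitionability. -/

namespace Pool.Agent.Work.MP_47f029_co

/-- `Δ` is an abstract simplicial complex on the vertex set `Fin N`: a family of finite sets of
vertices that contains the empty set and is closed under taking subsets. -/
def IsComplex {N : ℕ} (Δ : Set (Finset (Fin N))) : Prop :=
  ∅ ∈ Δ ∧ ∀ F ∈ Δ, ∀ G : Finset (Fin N), G ⊆ F → G ∈ Δ

/-- `F` is a facet of `Δ`: an inclusion-maximal face. -/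
def IsFacet {N : ℕ} (Δ : Set (Finset (Fin N))) (F : Finset (Fin N)) : Prop :=
  F ∈ Δ ∧ ∀ G ∈ Δ, F ⊆ G → G = F

/-- The geometric realization of `Δ` (barycentric coordinates): the points `x` of `ℝ^N` with
nonnegative coordinates of sum `1` whose support `{i | x i ≠ 0}` is a face of `Δ`. -/
def realization {N : ℕ} (Δ : Set (Finset (Fin N))) : Set (Fin N → ℝ) :=
  {x | (∀ i, 0 ≤ x i) ∧ ∑ i, x i = 1 ∧ ∃ F ∈ Δ, ∀ i, i ∈ F ↔ x i ≠ 0}

/-- `Δ` is partitionable: one can choose a subset `R F` of every facet `F` such that every face `G`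
of `Δ` (the empty face included) lies in exactly one of the intervals `[R F, F]`. -/
def Partitionable {N : ℕ} (Δ : Set (Finset (Fin N))) : Prop :=
  ∃ R : Finset (Fin N) → Finset (Fin N), (∀ F, IsFacet Δ F → R F ⊆ F) ∧
    ∀ G ∈ Δ, ∃! F, IsFacet Δ F ∧ R F ⊆ G ∧ G ⊆ F

end Pool.Agent.Work.MP_47f029_co
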